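import Pool.Agent.R973.Chaos.Defs

/-!
# The block hypergraph and the edge variables
-/

set_option autoImplicit false

open MeasureTheory ProbabilityTheory
open scoped ENNReal

namespace Pool.Agent.R973.Chaos

/-- The block of `a`. -/
def block {N : ℕ} (a : Fin N) : Finset (Fin N) :=
  Finset.univ.filter fun i => i.val / 4 = a.val / 4

/-- `a` lies in a block with four elements. -/
def Full {N : ℕ} (a : Fin N) : Prop := 4 * (a.val / 4) + 4 ≤ N

instance {N : ℕ} (a : Fin N) : Decidable (Full a) := by unfold Full; infer_instance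

/-- The hyperedge opposite to `a`. -/
def edge {N : ℕ} (a : Fin N) : Finset (Fin N) := (block a).erase a

/-- The block hypergraph. -/
def blockGraph (N : ℕ) : Finset (Finset (Fin N)) :=
  (Finset.univ.filter fun a : Fin N => Full a).image edge

lemma mem_block_self {N : ℕ} (a : Fin N) : a ∈ block a := by simp [block]

lemma mem_block {N : ℕ} {a b : Fin N} : b ∈ block a ↔ b.val / 4 = a.val / 4 := by
  simp [block]

lemma block_eq {N : ℕ} {a b : Fin N} (h : b ∈ block a) : block b = block a := by
  rw [mem_block] at h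
  unfold block
  rw [h]

lemma full_of_mem {N : ℕ} {a b : Fin N} (h : b ∈ block a) (ha : Full a) : Full b := by
  rw [mem_block] at h
  unfold Full at *
  rw [h]; exact ha

lemma card_block {N : ℕ} {a : Fin N} (ha : Full a) : (block a).card = 4 := by
  unfold Full at ha
  have : block a = (Finset.univ : Finset (Fin 4)).image
      (fun j : Fin 4 => (⟨4 * (a.val / 4) + j.val, by omega⟩ : Fin N)) := by
    ext b
    simp only [mem_block, Finset.mem_image, Finset.mem_univ, true_and]
    constructor
    · intro h
      refine ⟨⟨b.val % 4, by omega⟩, ?_⟩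
      ext
      simp only
      omega
    · rintro ⟨j, rfl⟩
      simp only
      omega
  rw [this, Finset.card_image_of_injective]
  · simp
  · intro i j hij
    simp only [Fin.mk.injEq] at hij
    ext; omega

lemma card_block_le {N : ℕ} (a : Fin N) : (block a).card ≤ 4 := by
  have h1 : (block a).card = ((block a).image fun i : Fin N => i.val % 4).card := by
    rw [Finset.card_image_of_injOn]
    intro i hi j hj hij
    rw [Finset.mem_coe, mem_block] at hi hj
    simp only at hij
    ext; omega
  rw [h1]
  calc _ ≤ (Finset.range 4).card := by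
        apply Finset.card_le_card
        intro x hx
        rw [Finset.mem_image] at hx
        obtain ⟨i, _, rfl⟩ := hx
        rw [Finset.mem_range]
        omega
    _ = 4 := by simp

lemma card_edge {N : ℕ} {a : Fin N} (ha : Full a) : (edge a).card = 3 := by
  unfold edge
  rw [Finset.card_erase_of_mem (mem_block_self a), card_block ha]

lemma edge_subset {N : ℕ} (a : Fin N) : edge a ⊆ block a := Finset.erase_subset _ _

lemma edge_inj {N : ℕ} {a b : Fin N} (ha : Full a) (h : edge a = edge b) : a = b := by
  have hne : (edge a).Nonempty := by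
    rw [← Finset.card_pos, card_edge ha]; norm_num
  obtain ⟨i, hi⟩ := hne
  have h1 : i ∈ block a := edge_subset a hi
  have h2 : i ∈ block b := edge_subset b (h ▸ hi)
  have h3 : block a = block b := (block_eq h1).symm.trans (block_eq h2)
  by_contra hab
  have h4 : b ∈ edge a := by
    unfold edge
    rw [Finset.mem_erase]
    exact ⟨fun h => hab h.symm, h3 ▸ mem_block_self b⟩
  rw [h] at h4
  unfold edge at h4
  simp at h4

lemma mem_blockGraph {N : ℕ} {e : Finset (Fin N)} :
    e ∈ blockGraph N ↔ ∃ a : Fin N, Full a ∧ edge a = e := by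
  simp [blockGraph]

lemma uniform_blockGraph {N : ℕ} {e : Finset (Fin N)} (he : e ∈ blockGraph N) : e.card = 3 := by
  rw [mem_blockGraph] at he
  obtain ⟨a, ha, rfl⟩ := he
  exact card_edge ha

lemma within_block {N r : ℕ} {v w : Fin N} (h : Within (blockGraph N) r v w) :
    w ∈ block v := by
  rcases h with rfl | ⟨k, e, -, he, hv, hw, hj⟩
  · exact mem_block_self _
  · have key : ∀ j, j ≤ k → e j ⊆ block v := by
      intro j
      induction j with
      | zero =>
        intro h0
        obtain ⟨a, ha, hae⟩ := mem_blockGraph.1 (he 0 h0)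
        rw [← hae] at hv ⊢
        have := block_eq (edge_subset a hv)
        rw [this]
        exact edge_subset a
      | succ j ih =>
        intro hjk
        obtain ⟨i, hi⟩ := hj j (by omega)
        rw [Finset.mem_inter] at hi
        have h1 := ih (by omega) hi.1
        obtain ⟨a, ha, hae⟩ := mem_blockGraph.1 (he (j+1) hjk)
        rw [← hae] at hi ⊢
        have h2 := edge_subset a hi.2
        rw [← block_eq h1, block_eq h2]
        exact edge_subset a
    exact key k le_rfl hw

lemma ncard_ball_le (N r : ℕ) (v : Fin N) : (ball (blockGraph N) r v).ncard ≤ 4 := by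
  have hsub : ball (blockGraph N) r v ⊆ (block v : Set (Fin N)) := by
    intro w hw
    exact within_block hw
  calc _ ≤ ((block v : Set (Fin N))).ncard := Set.ncard_le_ncard hsub (Set.toFinite _)
    _ = (block v).card := Set.ncard_coe_finset _
    _ ≤ 4 := card_block_le v

/-- The edge variables `T(σ)_a = ∏_{i ∈ edge a} σ_i` (and `σ_a` outside the full blocks). -/
def T {N : ℕ} (σ : Fin N → ℤˣ) (a : Fin N) : ℤˣ :=
  if Full a then (∏ i ∈ block a, σ i) * σ a else σ a

lemma prod_edge {N : ℕ} (σ : Fin N → ℤˣ) (a : Fin N) :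
    ∏ i ∈ edge a, σ i = (∏ i ∈ block a, σ i) * σ a := by
  unfold edge
  rw [← Finset.mul_prod_erase (block a) σ (mem_block_self a)]
  rw [mul_comm (σ a), mul_assoc, Int.units_mul_self, mul_one]

lemma T_full {N : ℕ} (σ : Fin N → ℤˣ) {a : Fin N} (ha : Full a) :
    T σ a = ∏ i ∈ edge a, σ i := by
  rw [prod_edge]; simp [T, ha]

lemma T_T {N : ℕ} (σ : Fin N → ℤˣ) : T (T σ) = σ := by
  funext a
  by_cases ha : Full a
  · have h1 : ∏ i ∈ block a, T σ i = ∏ i ∈ block a, σ i := by
      have h2 : ∀ i ∈ block a, T σ i = (∏ j ∈ block a, σ j) * σ i := by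
        intro i hi
        have := full_of_mem hi ha
        simp [T, this, block_eq hi]
      rw [Finset.prod_congr rfl h2, Finset.prod_mul_distrib, Finset.prod_const, card_block ha]
      have h4 : ∀ s : ℤˣ, s ^ 4 = 1 := by
        intro s
        rw [show (4 : ℕ) = 2 * 2 from rfl, pow_mul, Int.units_sq]
        try rw [one_pow]
      rw [h4, one_mul]
    have h3 : T (T σ) a = (∏ i ∈ block a, T σ i) * T σ a := by simp [T, ha]
    rw [h3, h1]
    have h5 : T σ a = (∏ i ∈ block a, σ i) * σ a := by simp [T, ha]
    rw [h5, ← mul_assoc, Int.units_mul_self, one_mul]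
  · simp [T, ha]

/-- The involution `T` as a permutation. -/
def TEquiv (N : ℕ) : (Fin N → ℤˣ) ≃ (Fin N → ℤˣ) where
  toFun := T
  invFun := T
  left_inv := T_T
  right_inv := T_T

lemma sum_T {N : ℕ} (f : (Fin N → ℤˣ) → ℝ) : ∑ σ, f (T σ) = ∑ σ, f σ :=
  Equiv.sum_comp (TEquiv N) f

/-- The real value of a spin. -/
noncomputable def sv (x : ℤˣ) : ℝ := ((x : ℤ) : ℝ)

lemma sv_one : sv 1 = 1 := by simp [sv]
lemma sv_neg_one : sv (-1) = -1 := by simp [sv]
lemma sv_mul (x y : ℤˣ) : sv (x * y) = sv x * sv y := by simp [sv]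
lemma sv_prod {ι : Type*} (s : Finset ι) (f : ι → ℤˣ) : sv (∏ i ∈ s, f i) = ∏ i ∈ s, sv (f i) := by
  simp [sv]
lemma sv_abs (x : ℤˣ) : |sv x| = 1 := by
  rcases Int.units_eq_one_or x with rfl | rfl <;> simp [sv]

lemma energy_eq {N : ℕ} (ρ : ℝ → ℝ) (J : Finset (Fin N) → ℝ) (σ : Fin N → ℤˣ) :
    energy (blockGraph N) ρ J σ
      = ∑ a ∈ Finset.univ.filter (fun a : Fin N => Full a), ρ (J (edge a)) * sv (T σ a) := by
  unfold energy blockGraph
  rw [Finset.sum_image]
  · apply Finset.sum_congr rfl
    intro a ha
    rw [Finset.mem_filter] at ha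
    rw [T_full σ ha.2, sv_prod]
    rfl
  · intro a ha b hb hab
    rw [Finset.mem_coe, Finset.mem_filter] at ha
    exact edge_inj ha.2 hab

end Pool.Agent.R973.Chaos
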