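import Mathlib

/-!
# Short-range spin models on hypergraphs: definitions

Vertices are `Fin N`, hyperedges are finite sets of vertices, `E : Finset (Finset (Fin N))`.
-/

set_option autoImplicit false

open MeasureTheory ProbabilityTheory
open scoped ENNReal

namespace Pool.Agent.R973.Chaos

/-- `v` and `w` are joined by a chain of at most `r` hyperedges: there are hyperedges
`e 0, ..., e k` with `k + 1 ≤ r`, `v ∈ e 0`, `w ∈ e k` and `e j ∩ e (j + 1) ≠ ∅`; or `v = w`. -/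
def Within {N : ℕ} (E : Finset (Finset (Fin N))) (r : ℕ) (v w : Fin N) : Prop :=
  v = w ∨ ∃ (k : ℕ) (e : ℕ → Finset (Fin N)), k + 1 ≤ r ∧ (∀ j, j ≤ k → e j ∈ E) ∧ v ∈ e 0 ∧
    w ∈ e k ∧ ∀ j, j < k → (e j ∩ e (j + 1)).Nonempty

/-- The ball `B_r(v)` for the hypergraph distance. -/
def ball {N : ℕ} (E : Finset (Finset (Fin N))) (r : ℕ) (v : Fin N) : Set (Fin N) :=
  {w | Within E r v w}

/-- The product of the spins of a hyperedge, `σ_e = ∏_{i ∈ e} σ_i`; spins are `±1`. -/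
noncomputable def spinProd {N : ℕ} (σ : Fin N → ℤˣ) (e : Finset (Fin N)) : ℝ :=
  ∏ i ∈ e, ((σ i : ℤ) : ℝ)

/-- The Hamiltonian `H_J(σ) = ∑_{e ∈ E} ρ(J_e) σ_e`. -/
noncomputable def energy {N : ℕ} (E : Finset (Finset (Fin N))) (ρ : ℝ → ℝ)
    (J : Finset (Fin N) → ℝ) (σ : Fin N → ℤˣ) : ℝ :=
  ∑ e ∈ E, ρ (J e) * spinProd σ e

/-- `σ` maximises `H_J`. -/
def IsMax {N : ℕ} (E : Finset (Finset (Fin N))) (ρ : ℝ → ℝ)
    (J : Finset (Fin N) → ℝ) (σ : Fin N → ℤˣ) : Prop :=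
  ∀ τ : Fin N → ℤˣ, energy E ρ J τ ≤ energy E ρ J σ

open Classical in
/-- The unnormalised Gibbs weight: `exp (β H_J(σ))` for `β < ∞`, and the indicator of the
maximisers of `H_J` for `β = ∞`. -/
noncomputable def weight {N : ℕ} (E : Finset (Finset (Fin N))) (ρ : ℝ → ℝ) (β : ℝ≥0∞)
    (J : Finset (Fin N) → ℝ) (σ : Fin N → ℤˣ) : ℝ :=
  if β = ∞ then (if IsMax E ρ J σ then 1 else 0) else Real.exp (β.toReal * energy E ρ J σ)

/-- The Gibbs measure `G_{J,β}`; for `β = ∞` it is uniform on the maximisers of `H_J`. -/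
noncomputable def gibbs {N : ℕ} (E : Finset (Finset (Fin N))) (ρ : ℝ → ℝ) (β : ℝ≥0∞)
    (J : Finset (Fin N) → ℝ) (σ : Fin N → ℤˣ) : ℝ :=
  weight E ρ β J σ / ∑ τ : Fin N → ℤˣ, weight E ρ β J τ

/-- The site overlap `R(σ,τ) = N⁻¹ ∑ σ_i τ_i`. -/
noncomputable def overlap {N : ℕ} (σ τ : Fin N → ℤˣ) : ℝ :=
  (∑ i, ((σ i : ℤ) : ℝ) * ((τ i : ℤ) : ℝ)) / N

/-- `⟨R(σ,τ)²⟩` for independent `σ ∼ G_{J,β}` and `τ ∼ G_{J',β}`. -/
noncomputable def meanSq {N : ℕ} (E : Finset (Finset (Fin N))) (ρ : ℝ → ℝ) (β : ℝ≥0∞)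
    (J J' : Finset (Fin N) → ℝ) : ℝ :=
  ∑ σ : Fin N → ℤˣ, ∑ τ : Fin N → ℤˣ, gibbs E ρ β J σ * gibbs E ρ β J' τ * overlap σ τ ^ 2

/-- `𝔼⟨R(σ,τ)²⟩_t` for the continuous perturbation `J(t) = e^{-t} J + √(1 - e^{-2t}) J'`, where the
families `J` and `J'` consist of independent standard Gaussian variables. -/
noncomputable def continuousChaos {N : ℕ} (E : Finset (Finset (Fin N))) (ρ : ℝ → ℝ) (β : ℝ≥0∞)
    (t : ℝ) : ℝ :=
  ∫ J : Finset (Fin N) → ℝ, ∫ J' : Finset (Fin N) → ℝ,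
    meanSq E ρ β J (fun e => Real.exp (-t) * J e + Real.sqrt (1 - Real.exp (-2 * t)) * J' e)
    ∂(Measure.pi fun _ => gaussianReal 0 1) ∂(Measure.pi fun _ => gaussianReal 0 1)

/-- The Bernoulli law with `P(true) = p`. -/
noncomputable def bern (p : ℝ) : Measure Bool :=
  ENNReal.ofReal p • Measure.dirac true + ENNReal.ofReal (1 - p) • Measure.dirac false

/-- `𝔼⟨R(σ,τ)²⟩_t` for the discrete perturbation `J(t)_e = B_e J_e + (1 - B_e) J'_e`, where the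
families `J`, `J'` consist of independent standard Gaussian variables, and the `B_e` are
independent Bernoulli variables with parameter `e^{-t}`; the family `u e = (J'_e, B_e)` has
independent entries. -/
noncomputable def discreteChaos {N : ℕ} (E : Finset (Finset (Fin N))) (ρ : ℝ → ℝ) (β : ℝ≥0∞)
    (t : ℝ) : ℝ :=
  ∫ J : Finset (Fin N) → ℝ, ∫ u : Finset (Fin N) → ℝ × Bool,
    meanSq E ρ β J (fun e => if (u e).2 then J e else (u e).1)
    ∂(Measure.pi fun _ => (gaussianReal 0 1).prod (bern (Real.exp (-t))))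
    ∂(Measure.pi fun _ => gaussianReal 0 1)

end Pool.Agent.R973.Chaos
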