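import Pool.Agent.R973.Chaos.Block

/-!
# Gibbs averages for the block hypergraph
-/

set_option autoImplicit false

open MeasureTheory ProbabilityTheory
open scoped ENNReal

namespace Pool.Agent.R973.Chaos

open Classical in
/-- Single edge weight. -/
noncomputable def phi (β : ℝ≥0∞) (r : ℝ) (x : ℤˣ) : ℝ :=
  if β = ∞ then (if r * sv x = |r| then 1 else 0) else Real.exp (β.toReal * (r * sv x))

lemma phi_nonneg (β : ℝ≥0∞) (r : ℝ) (x : ℤˣ) : 0 ≤ phi β r x := by
  unfold phi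
  split_ifs
  · norm_num
  · norm_num
  · positivity

lemma phi_sum_pos (β : ℝ≥0∞) (r : ℝ) : 0 < phi β r 1 + phi β r (-1) := by
  by_cases hβ : β = ∞
  · simp only [phi, hβ, if_true, sv_one, sv_neg_one, mul_one, mul_neg]
    rcases le_total 0 r with h | h
    · rw [if_pos (abs_of_nonneg h).symm]
      split_ifs <;> norm_num
    · have : -r = |r| := (abs_of_nonpos h).symm
      rw [if_pos this]
      split_ifs <;> norm_num
  · simp only [phi, hβ, if_false]
    positivity

/-- Single edge magnetisation. -/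
noncomputable def mag (β : ℝ≥0∞) (r : ℝ) : ℝ :=
  (phi β r 1 - phi β r (-1)) / (phi β r 1 + phi β r (-1))

lemma mag_neg (β : ℝ≥0∞) (r : ℝ) : mag β (-r) = -mag β r := by
  have h1 : phi β (-r) 1 = phi β r (-1) := by
    simp only [phi, sv_one, sv_neg_one, abs_neg]
    congr 2 <;> ring_nf
  have h2 : phi β (-r) (-1) = phi β r 1 := by
    simp only [phi, sv_one, sv_neg_one, abs_neg]
    congr 2 <;> ring_nf
  unfold mag
  rw [h1, h2, ← neg_div, neg_sub, add_comm (phi β r (-1))]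

lemma mag_abs_le (β : ℝ≥0∞) (r : ℝ) : |mag β r| ≤ 1 := by
  unfold mag
  have h0 := phi_nonneg β r 1
  have h1 := phi_nonneg β r (-1)
  have h2 := phi_sum_pos β r
  rw [abs_div, abs_of_pos h2, div_le_one h2, abs_le]
  constructor <;> linarith

lemma mag_pos {β : ℝ≥0∞} (hβ : β ≠ 0) {r : ℝ} (hr : 0 < r) : 0 < mag β r := by
  unfold mag
  apply div_pos _ (phi_sum_pos β r)
  by_cases h : β = ∞
  · simp only [phi, h, if_true, sv_one, sv_neg_one, mul_one, mul_neg]
    rw [if_pos (abs_of_pos hr).symm, if_neg]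
    · norm_num
    · rw [abs_of_pos hr]; linarith
  · simp only [phi, h, if_false, sv_one, sv_neg_one]
    have hb : 0 < β.toReal := ENNReal.toReal_pos hβ h
    have : Real.exp (β.toReal * (r * -1)) < Real.exp (β.toReal * (r * 1)) := by
      apply Real.exp_lt_exp.2
      nlinarith [mul_pos hb hr]
    linarith

lemma mag_zero (β : ℝ≥0∞) : mag β 0 = 0 := by
  have := mag_neg β 0
  rw [neg_zero] at this
  linarith

lemma mag_eq_zero {β : ℝ≥0∞} (hβ : β ≠ 0) {r : ℝ} : mag β r = 0 ↔ r = 0 := by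
  constructor
  · intro h
    rcases lt_trichotomy r 0 with h0 | h0 | h0
    · have h1 : 0 < mag β (-r) := mag_pos hβ (by linarith)
      rw [mag_neg] at h1
      linarith
    · exact h0
    · have := mag_pos hβ h0
      linarith
  · rintro rfl
    exact mag_zero β

lemma mag_nonneg {β : ℝ≥0∞} (hβ : β ≠ 0) {r : ℝ} (hr : 0 ≤ r) : 0 ≤ mag β r := by
  rcases hr.eq_or_lt with h | h
  · rw [← h, mag_zero]
  · exact (mag_pos hβ h).le

lemma measurable_phi (β : ℝ≥0∞) (x : ℤˣ) : Measurable fun r => phi β r x := by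
  unfold phi
  by_cases h : β = ∞
  · simp only [h, if_true]
    apply Measurable.ite
    · apply measurableSet_eq_fun
      · fun_prop
      · exact measurable_id.abs
    · exact measurable_const
    · exact measurable_const
  · simp only [h, if_false]
    fun_prop

lemma measurable_mag (β : ℝ≥0∞) : Measurable (mag β) := by
  unfold mag
  exact ((measurable_phi β 1).sub (measurable_phi β (-1))).div
    ((measurable_phi β 1).add (measurable_phi β (-1)))

/-- The weight factor of `a`. -/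
noncomputable def fac {N : ℕ} (β : ℝ≥0∞) (ρ : ℝ → ℝ) (J : Finset (Fin N) → ℝ) (a : Fin N)
    (x : ℤˣ) : ℝ := if Full a then phi β (ρ (J (edge a))) x else 1

lemma fac_nonneg {N : ℕ} (β : ℝ≥0∞) (ρ : ℝ → ℝ) (J : Finset (Fin N) → ℝ) (a : Fin N)
    (x : ℤˣ) : 0 ≤ fac β ρ J a x := by
  unfold fac
  split_ifs
  · exact phi_nonneg _ _ _
  · norm_num

lemma fac_sum_pos {N : ℕ} (β : ℝ≥0∞) (ρ : ℝ → ℝ) (J : Finset (Fin N) → ℝ) (a : Fin N) :
    0 < fac β ρ J a 1 + fac β ρ J a (-1) := by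
  unfold fac
  split_ifs
  · exact phi_sum_pos _ _
  · norm_num

/-- The sign as a spin. -/
noncomputable def sg (r : ℝ) : ℤˣ := if 0 ≤ r then 1 else -1

lemma mul_sg (r : ℝ) : r * sv (sg r) = |r| := by
  unfold sg
  split_ifs with h
  · rw [sv_one, mul_one, abs_of_nonneg h]
  · rw [sv_neg_one, abs_of_neg (not_le.1 h)]; ring

lemma mul_sv_le (r : ℝ) (x : ℤˣ) : r * sv x ≤ |r| := by
  calc r * sv x ≤ |r * sv x| := le_abs_self _
    _ = |r| := by rw [abs_mul, sv_abs, mul_one]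

lemma isMax_iff {N : ℕ} (ρ : ℝ → ℝ) (J : Finset (Fin N) → ℝ) (σ : Fin N → ℤˣ) :
    IsMax (blockGraph N) ρ J σ ↔
      ∀ a : Fin N, Full a → ρ (J (edge a)) * sv (T σ a) = |ρ (J (edge a))| := by
  constructor
  · intro h
    have h1 := h (T fun a => sg (ρ (J (edge a))))
    rw [energy_eq, energy_eq, T_T] at h1
    simp only [mul_sg] at h1
    have h2 : ∑ a ∈ Finset.univ.filter (fun a : Fin N => Full a),
        (|ρ (J (edge a))| - ρ (J (edge a)) * sv (T σ a)) = 0 := by
      apply le_antisymm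
      · rw [Finset.sum_sub_distrib]; linarith
      · apply Finset.sum_nonneg
        intro a _
        linarith [mul_sv_le (ρ (J (edge a))) (T σ a)]
    rw [Finset.sum_eq_zero_iff_of_nonneg] at h2
    · intro a ha
      have := h2 a (by simp [ha])
      linarith
    · intro a _
      linarith [mul_sv_le (ρ (J (edge a))) (T σ a)]
  · intro h τ
    rw [energy_eq, energy_eq]
    apply Finset.sum_le_sum
    intro a ha
    rw [Finset.mem_filter] at ha
    rw [h a ha.2]
    exact mul_sv_le _ _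

lemma weight_eq {N : ℕ} (β : ℝ≥0∞) (ρ : ℝ → ℝ) (J : Finset (Fin N) → ℝ) (σ : Fin N → ℤˣ) :
    weight (blockGraph N) ρ β J σ = ∏ a, fac β ρ J a (T σ a) := by
  classical
  unfold weight
  by_cases hβ : β = ∞
  · rw [if_pos hβ]
    by_cases hm : IsMax (blockGraph N) ρ J σ
    · rw [if_pos hm]
      rw [isMax_iff] at hm
      symm
      apply Finset.prod_eq_one
      intro a _
      unfold fac
      split_ifs with ha
      · unfold phi
        rw [if_pos hβ, if_pos (hm a ha)]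
      · rfl
    · rw [if_neg hm]
      rw [isMax_iff] at hm
      push Not at hm
      obtain ⟨a, ha, hne⟩ := hm
      symm
      apply Finset.prod_eq_zero (Finset.mem_univ a)
      unfold fac phi
      rw [if_pos ha, if_pos hβ, if_neg hne]
  · rw [if_neg hβ, energy_eq, Finset.mul_sum, Real.exp_sum, Finset.prod_filter]
    apply Finset.prod_congr rfl
    intro a _
    unfold fac phi
    split_ifs <;> rfl

lemma sum_units (f : ℤˣ → ℝ) : ∑ x, f x = f 1 + f (-1) := by
  have : (Finset.univ : Finset ℤˣ) = {1, -1} := by decide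
  rw [this, Finset.sum_pair]
  decide

lemma sum_prod {N : ℕ} (h : Fin N → ℤˣ → ℝ) :
    ∑ τ : Fin N → ℤˣ, ∏ a, h a (τ a) = ∏ a, (h a 1 + h a (-1)) := by
  have := Finset.prod_univ_sum (fun _ : Fin N => (Finset.univ : Finset ℤˣ)) h
  rw [Fintype.piFinset_univ] at this
  rw [← this]
  simp only [sum_units]

lemma sum_weight {N : ℕ} (β : ℝ≥0∞) (ρ : ℝ → ℝ) (J : Finset (Fin N) → ℝ) :
    ∑ σ, weight (blockGraph N) ρ β J σ = ∏ a, (fac β ρ J a 1 + fac β ρ J a (-1)) := by
  simp only [weight_eq]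
  rw [sum_T (fun τ => ∏ a, fac β ρ J a (τ a)), sum_prod]

lemma sum_weight_pos {N : ℕ} (β : ℝ≥0∞) (ρ : ℝ → ℝ) (J : Finset (Fin N) → ℝ) :
    0 < ∑ σ, weight (blockGraph N) ρ β J σ := by
  rw [sum_weight]
  exact Finset.prod_pos fun a _ => fac_sum_pos β ρ J a

lemma weight_nonneg {N : ℕ} (β : ℝ≥0∞) (ρ : ℝ → ℝ) (J : Finset (Fin N) → ℝ) (σ : Fin N → ℤˣ) :
    0 ≤ weight (blockGraph N) ρ β J σ := by
  rw [weight_eq]
  exact Finset.prod_nonneg fun a _ => fac_nonneg β ρ J a _

lemma gibbs_nonneg {N : ℕ} (β : ℝ≥0∞) (ρ : ℝ → ℝ) (J : Finset (Fin N) → ℝ) (σ : Fin N → ℤˣ) :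
    0 ≤ gibbs (blockGraph N) ρ β J σ :=
  div_nonneg (weight_nonneg β ρ J σ) (sum_weight_pos β ρ J).le

lemma sum_gibbs {N : ℕ} (β : ℝ≥0∞) (ρ : ℝ → ℝ) (J : Finset (Fin N) → ℝ) :
    ∑ σ, gibbs (blockGraph N) ρ β J σ = 1 := by
  unfold gibbs
  rw [← Finset.sum_div, div_self (sum_weight_pos β ρ J).ne']

/-- The site magnetisation. -/
noncomputable def site {N : ℕ} (β : ℝ≥0∞) (ρ : ℝ → ℝ) (J : Finset (Fin N) → ℝ) (i : Fin N) : ℝ :=
  if Full i then ∏ b ∈ edge i, mag β (ρ (J (edge b))) else 0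

lemma full_of_edge {N : ℕ} {i b : Fin N} (hi : Full i) (hb : b ∈ edge i) : Full b :=
  full_of_mem (edge_subset i hb) hi

lemma sum_spin_weight {N : ℕ} (β : ℝ≥0∞) (ρ : ℝ → ℝ) (J : Finset (Fin N) → ℝ) (i : Fin N) :
    ∑ σ, weight (blockGraph N) ρ β J σ * sv (σ i)
      = site β ρ J i * ∏ a, (fac β ρ J a 1 + fac β ρ J a (-1)) := by
  have h1 : ∀ σ : Fin N → ℤˣ, weight (blockGraph N) ρ β J σ * sv (σ i)
      = (fun τ => (∏ a, fac β ρ J a (τ a)) * sv (T τ i)) (T σ) := by
    intro σ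
    simp only [T_T, weight_eq]
  rw [Finset.sum_congr rfl fun σ _ => h1 σ,
    sum_T (fun τ => (∏ a, fac β ρ J a (τ a)) * sv (T τ i))]
  by_cases hi : Full i
  · have h2 : ∀ τ : Fin N → ℤˣ, (∏ a, fac β ρ J a (τ a)) * sv (T τ i)
        = ∏ a, (fun a x => fac β ρ J a x * (if a ∈ edge i then sv x else 1)) a (τ a) := by
      intro τ
      rw [Finset.prod_mul_distrib, T_full τ hi, sv_prod]
      congr 1
      rw [Finset.prod_ite_mem, Finset.univ_inter]
    rw [Finset.sum_congr rfl fun τ _ => h2 τ,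
      sum_prod (fun a x => fac β ρ J a x * (if a ∈ edge i then sv x else 1))]
    have h3 : site β ρ J i = ∏ a, (if a ∈ edge i then mag β (ρ (J (edge a))) else 1) := by
      unfold site
      rw [if_pos hi, Finset.prod_ite_mem, Finset.univ_inter]
    rw [h3, ← Finset.prod_mul_distrib]
    apply Finset.prod_congr rfl
    intro a _
    by_cases ha : a ∈ edge i
    · simp only [ha, if_true, sv_one, sv_neg_one, mul_one, mul_neg]
      have hfa := full_of_edge hi ha
      have := phi_sum_pos β (ρ (J (edge a)))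
      unfold fac mag
      simp only [hfa, if_true]
      rw [div_mul_cancel₀ _ this.ne']
      ring
    · simp only [ha, if_false, mul_one, one_mul]
  · have h3 : site β ρ J i = 0 := by simp [site, hi]
    rw [h3, zero_mul]
    have h2 : ∀ τ : Fin N → ℤˣ, (∏ a, fac β ρ J a (τ a)) * sv (T τ i)
        = ∏ a, (fun a x => fac β ρ J a x * (if a = i then sv x else 1)) a (τ a) := by
      intro τ
      rw [Finset.prod_mul_distrib]
      congr 1
      rw [Finset.prod_ite_eq' Finset.univ i]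
      simp [T, hi]
    rw [Finset.sum_congr rfl fun τ _ => h2 τ,
      sum_prod (fun a x => fac β ρ J a x * (if a = i then sv x else 1))]
    apply Finset.prod_eq_zero (Finset.mem_univ i)
    simp [fac, hi, sv_one, sv_neg_one]

lemma sum_spin_gibbs {N : ℕ} (β : ℝ≥0∞) (ρ : ℝ → ℝ) (J : Finset (Fin N) → ℝ) (i : Fin N) :
    ∑ σ, gibbs (blockGraph N) ρ β J σ * sv (σ i) = site β ρ J i := by
  have h := sum_spin_weight β ρ J i
  have hp := sum_weight_pos β ρ J
  rw [← sum_weight] at h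
  unfold gibbs
  have h2 : ∀ σ : Fin N → ℤˣ, weight (blockGraph N) ρ β J σ / (∑ τ, weight (blockGraph N) ρ β J τ)
      * sv (σ i) = (weight (blockGraph N) ρ β J σ * sv (σ i))
        / (∑ τ, weight (blockGraph N) ρ β J τ) := by
    intro σ; ring
  rw [Finset.sum_congr rfl fun σ _ => h2 σ, ← Finset.sum_div, h, mul_div_assoc,
    div_self hp.ne', mul_one]

lemma mean_overlap {N : ℕ} (β : ℝ≥0∞) (ρ : ℝ → ℝ) (J J' : Finset (Fin N) → ℝ) :
    ∑ σ : Fin N → ℤˣ, ∑ τ : Fin N → ℤˣ, gibbs (blockGraph N) ρ β J σ *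
      gibbs (blockGraph N) ρ β J' τ * overlap σ τ = (∑ i, site β ρ J i * site β ρ J' i) / N := by
  have h1 : ∀ σ τ : Fin N → ℤˣ, gibbs (blockGraph N) ρ β J σ *
      gibbs (blockGraph N) ρ β J' τ * overlap σ τ =
      (∑ i, (gibbs (blockGraph N) ρ β J σ * sv (σ i)) *
        (gibbs (blockGraph N) ρ β J' τ * sv (τ i))) / N := by
    intro σ τ
    unfold overlap
    rw [mul_div_assoc', Finset.mul_sum]
    congr 1
    apply Finset.sum_congr rfl
    intro i _
    unfold sv
    ring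
  simp only [h1]
  simp only [← Finset.sum_div]
  congr 1
  have h2 : ∀ σ : Fin N → ℤˣ, ∑ τ : Fin N → ℤˣ, ∑ i, (gibbs (blockGraph N) ρ β J σ * sv (σ i)) *
        (gibbs (blockGraph N) ρ β J' τ * sv (τ i)) =
        ∑ i, (gibbs (blockGraph N) ρ β J σ * sv (σ i)) * site β ρ J' i := by
    intro σ
    rw [Finset.sum_comm]
    apply Finset.sum_congr rfl
    intro i _
    rw [← Finset.mul_sum, sum_spin_gibbs]
  rw [Finset.sum_congr rfl fun σ _ => h2 σ, Finset.sum_comm]
  apply Finset.sum_congr rfl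
  intro i _
  rw [← Finset.sum_mul, sum_spin_gibbs]

lemma sum_gibbs_gibbs {N : ℕ} (β : ℝ≥0∞) (ρ : ℝ → ℝ) (J J' : Finset (Fin N) → ℝ) :
    ∑ σ : Fin N → ℤˣ, ∑ τ : Fin N → ℤˣ, gibbs (blockGraph N) ρ β J σ *
      gibbs (blockGraph N) ρ β J' τ = 1 := by
  simp only [← Finset.mul_sum, sum_gibbs, mul_one]

lemma meanSq_ge {N : ℕ} (β : ℝ≥0∞) (ρ : ℝ → ℝ) (J J' : Finset (Fin N) → ℝ) (c : ℝ) :
    2 * c * ((∑ i, site β ρ J i * site β ρ J' i) / N) - c ^ 2
      ≤ meanSq (blockGraph N) ρ β J J' := by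
  have h1 : 0 ≤ ∑ σ : Fin N → ℤˣ, ∑ τ : Fin N → ℤˣ, gibbs (blockGraph N) ρ β J σ *
      gibbs (blockGraph N) ρ β J' τ * (overlap σ τ - c) ^ 2 := by
    apply Finset.sum_nonneg
    intro σ _
    apply Finset.sum_nonneg
    intro τ _
    exact mul_nonneg (mul_nonneg (gibbs_nonneg _ _ _ _) (gibbs_nonneg _ _ _ _)) (sq_nonneg _)
  have h2 : ∑ σ : Fin N → ℤˣ, ∑ τ : Fin N → ℤˣ, gibbs (blockGraph N) ρ β J σ *
      gibbs (blockGraph N) ρ β J' τ * (overlap σ τ - c) ^ 2
      = meanSq (blockGraph N) ρ β J J' - 2 * c * ((∑ i, site β ρ J i * site β ρ J' i) / N)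
        + c ^ 2 := by
    rw [← mean_overlap]
    have h3 := sum_gibbs_gibbs β ρ J J'
    have h4 : c ^ 2 = c ^ 2 * ∑ σ : Fin N → ℤˣ, ∑ τ : Fin N → ℤˣ, gibbs (blockGraph N) ρ β J σ *
      gibbs (blockGraph N) ρ β J' τ := by rw [h3, mul_one]
    rw [h4]
    unfold meanSq
    simp only [Finset.mul_sum]
    rw [← Finset.sum_sub_distrib, ← Finset.sum_add_distrib]
    apply Finset.sum_congr rfl
    intro σ _
    rw [← Finset.sum_sub_distrib, ← Finset.sum_add_distrib]
    apply Finset.sum_congr rfl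
    intro τ _
    ring
  linarith

lemma overlap_sq_le {N : ℕ} (σ τ : Fin N → ℤˣ) : overlap σ τ ^ 2 ≤ 1 := by
  have h1 : |overlap σ τ| ≤ 1 := by
    unfold overlap
    rw [abs_div, Nat.abs_cast]
    rcases Nat.eq_zero_or_pos N with h | h
    · subst h; simp
    · rw [div_le_one (by exact_mod_cast h)]
      calc _ ≤ ∑ i, |((σ i : ℤ) : ℝ) * ((τ i : ℤ) : ℝ)| := Finset.abs_sum_le_sum_abs _ _
        _ = ∑ i : Fin N, (1 : ℝ) := by
          apply Finset.sum_congr rfl
          intro i _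
          rw [abs_mul]
          have h2 := sv_abs (σ i)
          have h3 := sv_abs (τ i)
          unfold sv at h2 h3
          rw [h2, h3, mul_one]
        _ = N := by simp
  rw [← sq_abs]
  exact pow_le_one₀ (abs_nonneg _) h1

lemma meanSq_nonneg {N : ℕ} (β : ℝ≥0∞) (ρ : ℝ → ℝ) (J J' : Finset (Fin N) → ℝ) :
    0 ≤ meanSq (blockGraph N) ρ β J J' := by
  apply Finset.sum_nonneg
  intro σ _
  apply Finset.sum_nonneg
  intro τ _
  exact mul_nonneg (mul_nonneg (gibbs_nonneg _ _ _ _) (gibbs_nonneg _ _ _ _)) (sq_nonneg _)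

lemma meanSq_le_one {N : ℕ} (β : ℝ≥0∞) (ρ : ℝ → ℝ) (J J' : Finset (Fin N) → ℝ) :
    meanSq (blockGraph N) ρ β J J' ≤ 1 := by
  rw [← sum_gibbs_gibbs β ρ J J']
  apply Finset.sum_le_sum
  intro σ _
  apply Finset.sum_le_sum
  intro τ _
  calc _ ≤ gibbs (blockGraph N) ρ β J σ * gibbs (blockGraph N) ρ β J' τ * 1 :=
        mul_le_mul_of_nonneg_left (overlap_sq_le σ τ)
          (mul_nonneg (gibbs_nonneg _ _ _ _) (gibbs_nonneg _ _ _ _))
    _ = _ := mul_one _

lemma measurable_fac {N : ℕ} (β : ℝ≥0∞) {ρ : ℝ → ℝ} (hρ : Measurable ρ) (a : Fin N) (x : ℤˣ) :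
    Measurable fun J : Finset (Fin N) → ℝ => fac β ρ J a x := by
  unfold fac
  by_cases h : Full a
  · simp only [h, if_true]
    exact (measurable_phi β x).comp (hρ.comp (measurable_pi_apply _))
  · simp only [h, if_false]
    exact measurable_const

lemma measurable_gibbs {N : ℕ} (β : ℝ≥0∞) {ρ : ℝ → ℝ} (hρ : Measurable ρ) (σ : Fin N → ℤˣ) :
    Measurable fun J : Finset (Fin N) → ℝ => gibbs (blockGraph N) ρ β J σ := by
  unfold gibbs
  simp only [sum_weight]
  simp only [weight_eq]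
  apply Measurable.div
  · exact Finset.measurable_prod _ fun a _ => measurable_fac β hρ a _
  · exact Finset.measurable_prod _ fun a _ =>
      (measurable_fac β hρ a 1).add (measurable_fac β hρ a (-1))

lemma measurable_meanSq {N : ℕ} (β : ℝ≥0∞) {ρ : ℝ → ℝ} (hρ : Measurable ρ) :
    Measurable fun z : (Finset (Fin N) → ℝ) × (Finset (Fin N) → ℝ) =>
      meanSq (blockGraph N) ρ β z.1 z.2 := by
  unfold meanSq
  apply Finset.measurable_sum
  intro σ _
  apply Finset.measurable_sum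
  intro τ _
  exact (((measurable_gibbs β hρ σ).comp measurable_fst).mul
    ((measurable_gibbs β hρ τ).comp measurable_snd)).mul_const _

end Pool.Agent.R973.Chaos
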