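import Pool.Agent.R973.Chaos.Lower

/-!
# Positivity of the one edge correlation
-/

set_option autoImplicit false

open MeasureTheory ProbabilityTheory
open scoped ENNReal NNReal

namespace Pool.Agent.R973.Chaos

instance bern_prob (t : ℝ) [h : Fact (0 ≤ t)] : IsProbabilityMeasure (bern (Real.exp (-t))) := by
  constructor
  have h0 : 0 ≤ Real.exp (-t) := (Real.exp_pos _).le
  have h1 : Real.exp (-t) ≤ 1 := Real.exp_le_one_iff.2 (by linarith [h.out])
  unfold bern
  simp only [Measure.coe_add, Measure.coe_smul, Pi.add_apply, Pi.smul_apply, measure_univ,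
    smul_eq_mul, mul_one]
  rw [← ENNReal.ofReal_add h0 (by linarith)]
  simp

lemma integral_bern {t : ℝ} (ht : 0 ≤ t) (f : Bool → ℝ) :
    ∫ b, f b ∂(bern (Real.exp (-t))) = Real.exp (-t) * f true + (1 - Real.exp (-t)) * f false := by
  have h0 : 0 ≤ Real.exp (-t) := (Real.exp_pos _).le
  have h1 : Real.exp (-t) ≤ 1 := Real.exp_le_one_iff.2 (by linarith)
  unfold bern
  rw [integral_add_measure, integral_smul_measure, integral_smul_measure, integral_dirac,
    integral_dirac, ENNReal.toReal_ofReal h0, ENNReal.toReal_ofReal (by linarith)]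
  · rfl
  · exact (integrable_dirac (by simp)).smul_measure ENNReal.ofReal_ne_top
  · exact (integrable_dirac (by simp)).smul_measure ENNReal.ofReal_ne_top

lemma int_mag_sq_pos {β : ℝ≥0∞} (hβ : β ≠ 0) {ρ : ℝ → ℝ} (hρ : Measurable ρ)
    (h0 : ¬ ρ =ᵐ[volume] 0) : 0 < ∫ x, mag β (ρ x) * mag β (ρ x) ∂(gaussianReal 0 1) := by
  have hm : Measurable fun x => mag β (ρ x) := (measurable_mag β).comp hρ
  have hint : Integrable (fun x => mag β (ρ x) * mag β (ρ x)) (gaussianReal 0 1) := by
    have hm2 : Measurable fun x => mag β (ρ x) * mag β (ρ x) := hm.mul hm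
    apply Integrable.of_bound hm2.aestronglyMeasurable 1
    filter_upwards with z
    rw [Real.norm_eq_abs, abs_mul]
    exact mul_le_one₀ (mag_abs_le _ _) (abs_nonneg _) (mag_abs_le _ _)
  rw [integral_pos_iff_support_of_nonneg (fun x => mul_self_nonneg _) hint]
  rw [pos_iff_ne_zero]
  intro hz
  apply h0
  have h1 : volume (Function.support fun x => mag β (ρ x) * mag β (ρ x)) = 0 :=
    gaussianReal_absolutelyContinuous' 0 (by norm_num) hz
  have h2 : ∀ᵐ x ∂(volume : Measure ℝ), ρ x = 0 := by
    rw [ae_iff]
    refine measure_mono_null ?_ h1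
    intro x hx
    simp only [Set.mem_ofPred_eq] at hx
    rw [Function.mem_support]
    intro h3
    exact hx ((mag_eq_zero hβ).1 (mul_self_eq_zero.1 h3))
  exact h2

lemma kap_discrete {β : ℝ≥0∞} (hβ : β ≠ 0) {ρ : ℝ → ℝ} (hρ : Measurable ρ)
    (h0 : ¬ ρ =ᵐ[volume] 0) {t : ℝ} (ht : 0 ≤ t) :
    0 < kap β ρ ((gaussianReal 0 1).prod (bern (Real.exp (-t))))
      (fun x u => if u.2 then x else u.1) := by
  have hfact : Fact (0 ≤ t) := ⟨ht⟩
  have he : Real.exp (-t) ≤ 1 := Real.exp_le_one_iff.2 (by linarith)
  have hm : Measurable fun x => mag β (ρ x) := (measurable_mag β).comp hρ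
  have hi1 : Integrable (fun x => mag β (ρ x)) (gaussianReal 0 1) := by
    apply Integrable.of_bound hm.aestronglyMeasurable 1
    filter_upwards with z
    exact mag_abs_le _ _
  have hi2 : Integrable (fun x => mag β (ρ x) * mag β (ρ x)) (gaussianReal 0 1) := by
    have hm2 : Measurable fun x => mag β (ρ x) * mag β (ρ x) := hm.mul hm
    apply Integrable.of_bound hm2.aestronglyMeasurable 1
    filter_upwards with z
    rw [Real.norm_eq_abs, abs_mul]
    exact mul_le_one₀ (mag_abs_le _ _) (abs_nonneg _) (mag_abs_le _ _)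
  unfold kap
  have h1 : ∀ x : ℝ, ∫ u : ℝ × Bool, mag β (ρ x) * mag β (ρ (if u.2 then x else u.1))
      ∂((gaussianReal 0 1).prod (bern (Real.exp (-t))))
      = Real.exp (-t) * (mag β (ρ x) * mag β (ρ x))
        + (1 - Real.exp (-t)) * (mag β (ρ x) * ∫ y, mag β (ρ y) ∂(gaussianReal 0 1)) := by
    intro x
    have hmeas : Measurable fun u : ℝ × Bool =>
        mag β (ρ x) * mag β (ρ (if u.2 then x else u.1)) := by
      apply measurable_const.mul
      apply hm.comp
      exact Measurable.ite (measurable_snd (measurableSet_singleton true)) measurable_const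
        measurable_fst
    have hint : Integrable (fun u : ℝ × Bool =>
        mag β (ρ x) * mag β (ρ (if u.2 then x else u.1)))
        ((gaussianReal 0 1).prod (bern (Real.exp (-t)))) := by
      apply Integrable.of_bound hmeas.aestronglyMeasurable 1
      filter_upwards with z
      rw [Real.norm_eq_abs, abs_mul]
      exact mul_le_one₀ (mag_abs_le _ _) (abs_nonneg _) (mag_abs_le _ _)
    rw [integral_prod _ hint]
    simp only [integral_bern ht, if_true, Bool.false_eq_true, if_false]
    rw [integral_add (integrable_const _) ((hi1.const_mul _).const_mul _)]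
    simp only [integral_const_mul, integral_const, probReal_univ, one_smul]
  simp only [h1]
  rw [integral_add (hi2.const_mul _) ((hi1.mul_const _).const_mul _), integral_const_mul,
    integral_const_mul, integral_mul_const]
  have h2 := int_mag_sq_pos hβ hρ h0
  have h3 := mul_pos (Real.exp_pos (-t)) h2
  have h4 : 0 ≤ (1 - Real.exp (-t)) * ((∫ y, mag β (ρ y) ∂(gaussianReal 0 1)) *
    ∫ y, mag β (ρ y) ∂(gaussianReal 0 1)) :=
    mul_nonneg (by linarith) (mul_self_nonneg _)
  linarith

/-- Gaussian average of an odd function that is nonnegative on the positive half line. -/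
lemma gauss_shift_pos {g : ℝ → ℝ} (hg : Measurable g) (hb : ∀ x, |g x| ≤ 1)
    (hodd : ∀ x, g (-x) = -g x) (hpos : ∀ x, 0 < x → 0 ≤ g x) (h0 : ¬ g =ᵐ[volume] 0)
    {a b : ℝ} (ha : 0 < a) (hbb : 0 < b) {x : ℝ} (hx : 0 < x) :
    0 < ∫ y, g (a * x + b * y) ∂(gaussianReal 0 1) := by
  set v : ℝ≥0 := NNReal.mk (b ^ 2) (sq_nonneg b) with hv
  have hv0 : v ≠ 0 := by
    intro h
    have h1 : (v : ℝ) = 0 := by rw [h]; rfl
    have h2 : (v : ℝ) = b ^ 2 := rfl
    rw [h2] at h1
    nlinarith [pow_pos hbb 2]
  have hvpos : (0 : ℝ) < v := by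
    have h2 : (v : ℝ) = b ^ 2 := rfl
    rw [h2]; positivity
  have hmap : (gaussianReal 0 1).map (fun y => a * x + b * y) = gaussianReal (a * x) v := by
    have h1 : (fun y : ℝ => a * x + b * y) = (fun y => a * x + y) ∘ (fun y => b * y) := rfl
    rw [h1, ← Measure.map_map (by fun_prop) (by fun_prop), gaussianReal_map_const_mul,
      gaussianReal_map_const_add]
    rw [mul_zero, zero_add, mul_one]
  have h2 : ∫ y, g (a * x + b * y) ∂(gaussianReal 0 1) = ∫ z, g z ∂(gaussianReal (a * x) v) := by
    rw [← hmap, integral_map (by fun_prop) hg.aestronglyMeasurable]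
  rw [h2, integral_gaussianReal_eq_integral_smul hv0]
  simp only [smul_eq_mul]
  have hint : Integrable fun z => gaussianPDFReal (a * x) v z * g z := by
    apply (integrable_gaussianPDFReal (a * x) v).mul_bdd hg.aestronglyMeasurable (c := 1)
    filter_upwards with z
    exact hb z
  have h3 : ∫ z, gaussianPDFReal (a * x) v z * g z
      = ∫ z, gaussianPDFReal (a * x) v (-z) * g (-z) := by
    rw [← integral_neg_eq_self]
  have hint' : Integrable fun z => gaussianPDFReal (a * x) v (-z) * g (-z) := hint.comp_neg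
  have h4 : 2 * ∫ z, gaussianPDFReal (a * x) v z * g z
      = ∫ z, (gaussianPDFReal (a * x) v z - gaussianPDFReal (a * x) v (-z)) * g z := by
    have : ∀ z, (gaussianPDFReal (a * x) v z - gaussianPDFReal (a * x) v (-z)) * g z
        = gaussianPDFReal (a * x) v z * g z + gaussianPDFReal (a * x) v (-z) * g (-z) := by
      intro z; rw [hodd]; ring
    simp only [this]
    rw [integral_add hint hint', ← h3]; ring
  have hpdf : ∀ z, 0 < z → gaussianPDFReal (a * x) v (-z) < gaussianPDFReal (a * x) v z := by
    intro z hz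
    unfold gaussianPDFReal
    apply mul_lt_mul_of_pos_left
    · apply Real.exp_lt_exp.2
      rw [neg_div, neg_div, neg_lt_neg_iff]
      apply div_lt_div_of_pos_right _ (by positivity)
      nlinarith [mul_pos (mul_pos ha hx) hz]
    · positivity
  have h5 : ∀ z, 0 ≤ (gaussianPDFReal (a * x) v z - gaussianPDFReal (a * x) v (-z)) * g z := by
    intro z
    rcases lt_trichotomy z 0 with h | h | h
    · have h6 := hpdf (-z) (by linarith)
      rw [neg_neg] at h6
      have h7 := hpos (-z) (by linarith)
      rw [hodd] at h7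
      nlinarith
    · subst h; simp
    · have h6 := hpdf z h
      have h7 := hpos z h
      exact mul_nonneg (by linarith) h7
  have hint2 : Integrable fun z =>
      (gaussianPDFReal (a * x) v z - gaussianPDFReal (a * x) v (-z)) * g z := by
    have : (fun z => (gaussianPDFReal (a * x) v z - gaussianPDFReal (a * x) v (-z)) * g z)
        = fun z => gaussianPDFReal (a * x) v z * g z + gaussianPDFReal (a * x) v (-z) * g (-z) := by
      funext z; rw [hodd]; ring
    rw [this]
    exact hint.add hint'
  have h6 : 0 < ∫ z, (gaussianPDFReal (a * x) v z - gaussianPDFReal (a * x) v (-z)) * g z := by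
    rw [integral_pos_iff_support_of_nonneg h5 hint2, pos_iff_ne_zero]
    intro hz
    apply h0
    have h8 : ∀ᵐ z ∂(volume : Measure ℝ), z ≠ 0 := by
      rw [ae_iff]; simp
    have h9 : ∀ᵐ z ∂(volume : Measure ℝ),
        (gaussianPDFReal (a * x) v z - gaussianPDFReal (a * x) v (-z)) * g z = 0 := by
      rw [ae_iff]; exact hz
    filter_upwards [h8, h9] with z hz0 hz1
    rcases mul_eq_zero.1 hz1 with h | h
    · exfalso
      rcases lt_or_gt_of_ne hz0 with h' | h'
      · have := hpdf (-z) (by linarith)
        rw [neg_neg] at this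
        linarith
      · have := hpdf z h'
        linarith
    · exact h
  linarith

lemma kap_continuous {β : ℝ≥0∞} (hβ : β ≠ 0) {ρ : ℝ → ℝ} (hρ : Measurable ρ)
    (hodd : ∀ x, ρ (-x) = -ρ x) (hpos : ∀ x, 0 < x → 0 ≤ ρ x)
    (h0 : ¬ ρ =ᵐ[volume] 0) {t : ℝ} (ht : 0 ≤ t) :
    0 < kap β ρ (gaussianReal 0 1)
      (fun x y => Real.exp (-t) * x + Real.sqrt (1 - Real.exp (-2 * t)) * y) := by
  rcases ht.eq_or_lt with h | h
  · subst h
    unfold kap
    simp only [neg_zero, Real.exp_zero, one_mul, mul_zero, sub_self, Real.sqrt_zero, zero_mul,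
      add_zero]
    have : ∀ x : ℝ, ∫ _ : ℝ, mag β (ρ x) * mag β (ρ x) ∂(gaussianReal 0 1)
        = mag β (ρ x) * mag β (ρ x) := by intro x; simp
    simp only [this]
    exact int_mag_sq_pos hβ hρ h0
  · set a := Real.exp (-t) with ha
    set b := Real.sqrt (1 - Real.exp (-2 * t)) with hb
    have ha0 : 0 < a := Real.exp_pos _
    have hb0 : 0 < b := by
      rw [hb, Real.sqrt_pos]
      have : Real.exp (-2 * t) < 1 := Real.exp_lt_one_iff.2 (by linarith)
      linarith
    have hgm : Measurable fun x => mag β (ρ x) := (measurable_mag β).comp hρ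
    have hgodd : ∀ x, mag β (ρ (-x)) = -mag β (ρ x) := by
      intro x; rw [hodd, mag_neg]
    have hgpos : ∀ x, 0 < x → 0 ≤ mag β (ρ x) := fun x hx => mag_nonneg hβ (hpos x hx)
    have hg0 : ¬ (fun x => mag β (ρ x)) =ᵐ[volume] 0 := by
      intro hh
      apply h0
      filter_upwards [hh] with x hx
      exact (mag_eq_zero hβ).1 hx
    have hP : ∀ x, 0 < x → 0 < ∫ y, mag β (ρ (a * x + b * y)) ∂(gaussianReal 0 1) := by
      intro x hx
      exact gauss_shift_pos hgm (fun x => mag_abs_le _ _) hgodd hgpos hg0 ha0 hb0 hx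
    have hPneg : ∀ x, ∫ y, mag β (ρ (a * (-x) + b * y)) ∂(gaussianReal 0 1)
        = - ∫ y, mag β (ρ (a * x + b * y)) ∂(gaussianReal 0 1) := by
      intro x
      rw [← integral_neg]
      have h1 : (gaussianReal 0 1).map (fun y => -y) = gaussianReal 0 1 := by
        rw [gaussianReal_map_neg, neg_zero]
      have h2 : ∫ y, mag β (ρ (a * (-x) + b * y)) ∂(gaussianReal 0 1)
          = ∫ y, mag β (ρ (a * (-x) + b * y)) ∂((gaussianReal 0 1).map (fun y => -y)) := by
        rw [h1]
      rw [h2, integral_map (by fun_prop)]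
      · apply integral_congr_ae
        filter_upwards with y
        rw [← hgodd]
        congr 2
        ring
      · exact (hgm.comp (by fun_prop)).aestronglyMeasurable
    unfold kap
    have hk : ∀ x, ∫ y, mag β (ρ x) * mag β (ρ (a * x + b * y)) ∂(gaussianReal 0 1)
        = mag β (ρ x) * ∫ y, mag β (ρ (a * x + b * y)) ∂(gaussianReal 0 1) := by
      intro x; rw [integral_const_mul]
    have hnn : ∀ x, 0 ≤ ∫ y, mag β (ρ x) * mag β (ρ (a * x + b * y)) ∂(gaussianReal 0 1) := by
      intro x
      rw [hk]
      rcases lt_trichotomy x 0 with h | h | h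
      · have h1 := hP (-x) (by linarith)
        rw [hPneg] at h1
        have h2 := hgpos (-x) (by linarith)
        rw [hgodd] at h2
        nlinarith
      · subst h
        have : ρ 0 = 0 := by
          have := hodd 0
          rw [neg_zero] at this
          linarith
        rw [this, mag_zero, zero_mul]
      · exact mul_nonneg (hgpos x h) (hP x h).le
    have hmeas : Measurable fun x =>
        ∫ y, mag β (ρ x) * mag β (ρ (a * x + b * y)) ∂(gaussianReal 0 1) := by
      have : StronglyMeasurable (Function.uncurry fun (x y : ℝ) =>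
          mag β (ρ x) * mag β (ρ (a * x + b * y))) := by
        apply Measurable.stronglyMeasurable
        exact (hgm.comp measurable_fst).mul (hgm.comp (by fun_prop))
      exact this.integral_prod_right.measurable
    have hint : Integrable (fun x =>
        ∫ y, mag β (ρ x) * mag β (ρ (a * x + b * y)) ∂(gaussianReal 0 1)) (gaussianReal 0 1) := by
      apply Integrable.of_bound hmeas.aestronglyMeasurable 1
      filter_upwards with x
      have : ‖∫ y, mag β (ρ x) * mag β (ρ (a * x + b * y)) ∂(gaussianReal 0 1)‖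
          ≤ 1 * (gaussianReal 0 1).real Set.univ := by
        apply norm_integral_le_of_norm_le_const
        filter_upwards with y
        rw [Real.norm_eq_abs, abs_mul]
        exact mul_le_one₀ (mag_abs_le _ _) (abs_nonneg _) (mag_abs_le _ _)
      simpa using this
    rw [integral_pos_iff_support_of_nonneg hnn hint, pos_iff_ne_zero]
    intro hz
    apply h0
    have h1 : volume (Function.support fun x =>
        ∫ y, mag β (ρ x) * mag β (ρ (a * x + b * y)) ∂(gaussianReal 0 1)) = 0 :=
      gaussianReal_absolutelyContinuous' 0 (by norm_num) hz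
    have h8 : ∀ᵐ z ∂(volume : Measure ℝ), z ≠ 0 := by
      rw [ae_iff]; simp
    have h9 : ∀ᵐ x ∂(volume : Measure ℝ),
        ∫ y, mag β (ρ x) * mag β (ρ (a * x + b * y)) ∂(gaussianReal 0 1) = 0 := by
      rw [ae_iff]; exact h1
    filter_upwards [h8, h9] with x hx0 hx1
    rw [hk] at hx1
    rcases mul_eq_zero.1 hx1 with h | h
    · exact (mag_eq_zero hβ).1 h
    · exfalso
      rcases lt_or_gt_of_ne hx0 with h' | h'
      · have := hP (-x) (by linarith)
        rw [hPneg] at this
        linarith
      · have := hP x h'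
        linarith

end Pool.Agent.R973.Chaos
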