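import Pool.Agent.R973.Chaos.Gibbs

/-!
# Integration over the disorder
-/

set_option autoImplicit false

open MeasureTheory ProbabilityTheory
open scoped ENNReal

namespace Pool.Agent.R973.Chaos

section
variable {Ω' : Type*} [MeasurableSpace Ω']

/-- One edge correlation. -/
noncomputable def kap (β : ℝ≥0∞) (ρ : ℝ → ℝ) (ν : Measure Ω') (p : ℝ → Ω' → ℝ) : ℝ :=
  ∫ x, ∫ u, mag β (ρ x) * mag β (ρ (p x u)) ∂ν ∂(gaussianReal 0 1)

lemma integral_site {N : ℕ} (β : ℝ≥0∞) {ρ : ℝ → ℝ} (hρ : Measurable ρ) (ν : Measure Ω')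
    [IsProbabilityMeasure ν] {p : ℝ → Ω' → ℝ} (hp : Measurable (Function.uncurry p))
    {i : Fin N} (hi : Full i) :
    ∫ z : (Finset (Fin N) → ℝ) × (Finset (Fin N) → Ω'),
      site β ρ z.1 i * site β ρ (fun e => p (z.1 e) (z.2 e)) i
      ∂((Measure.pi fun _ => gaussianReal 0 1).prod (Measure.pi fun _ => ν))
      = kap β ρ ν p ^ 3 := by
  classical
  set S : Finset (Finset (Fin N)) := (edge i).image edge with hS
  have hinj : Set.InjOn (edge (N := N)) (edge i : Set (Fin N)) := by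
    intro a ha b hb hab
    exact edge_inj (full_of_edge hi (by exact_mod_cast ha)) hab
  have hcard : S.card = 3 := by
    rw [hS, Finset.card_image_of_injOn hinj, card_edge hi]
  set h : Finset (Fin N) → ℝ → Ω' → ℝ := fun e x u =>
    if e ∈ S then mag β (ρ x) * mag β (ρ (p x u)) else 1 with hh
  have hm1 : Measurable fun q : ℝ × Ω' => mag β (ρ q.1) * mag β (ρ (p q.1 q.2)) :=
    (((measurable_mag β).comp hρ).comp measurable_fst).mul
      (((measurable_mag β).comp hρ).comp hp)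
  have hmeas : ∀ e, Measurable fun q : ℝ × Ω' => h e q.1 q.2 := by
    intro e
    simp only [hh]
    split_ifs
    · exact hm1
    · exact measurable_const
  have hb : ∀ e x u, |h e x u| ≤ 1 := by
    intro e x u
    simp only [hh]
    split_ifs
    · rw [abs_mul]
      exact mul_le_one₀ (mag_abs_le _ _) (abs_nonneg _) (mag_abs_le _ _)
    · simp
  have h1 : ∀ z : (Finset (Fin N) → ℝ) × (Finset (Fin N) → Ω'),
      site β ρ z.1 i * site β ρ (fun e => p (z.1 e) (z.2 e)) i
        = ∏ e, h e (z.1 e) (z.2 e) := by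
    intro z
    simp only [hh]
    rw [Finset.prod_ite_mem, Finset.univ_inter, hS, Finset.prod_image hinj]
    unfold site
    rw [if_pos hi, if_pos hi, ← Finset.prod_mul_distrib]
  have hFm : Measurable fun z : (Finset (Fin N) → ℝ) × (Finset (Fin N) → Ω') =>
      ∏ e, h e (z.1 e) (z.2 e) := by
    apply Finset.measurable_prod
    intro e _
    have hc : Measurable fun z : (Finset (Fin N) → ℝ) × (Finset (Fin N) → Ω') =>
        (z.1 e, z.2 e) := by fun_prop
    exact (hmeas e).comp hc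
  have hint : Integrable (fun z : (Finset (Fin N) → ℝ) × (Finset (Fin N) → Ω') =>
      ∏ e, h e (z.1 e) (z.2 e))
      ((Measure.pi fun _ => gaussianReal 0 1).prod (Measure.pi fun _ => ν)) := by
    apply Integrable.of_bound hFm.aestronglyMeasurable 1
    filter_upwards with z
    rw [Real.norm_eq_abs, Finset.abs_prod]
    exact Finset.prod_le_one (fun e _ => abs_nonneg _) fun e _ => hb _ _ _
  simp only [h1]
  rw [integral_prod _ hint]
  have h2 : ∀ x : Finset (Fin N) → ℝ, ∫ u : Finset (Fin N) → Ω', ∏ e, h e (x e) (u e)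
      ∂(Measure.pi fun _ => ν) = ∏ e, (fun e y => ∫ v, h e y v ∂ν) e (x e) := by
    intro x
    rw [integral_fintype_prod_eq_prod (μ := fun _ => ν) (fun e v => h e (x e) v)]
  simp only [h2]
  rw [integral_fintype_prod_eq_prod (μ := fun _ => gaussianReal 0 1)
    (fun e y => ∫ v, h e y v ∂ν)]
  have h3 : ∀ e : Finset (Fin N), ∫ x, ∫ v, h e x v ∂ν ∂(gaussianReal 0 1)
      = if e ∈ S then kap β ρ ν p else 1 := by
    intro e
    simp only [hh]
    split_ifs
    · rfl
    · simp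
  simp only [h3]
  rw [Finset.prod_ite_mem, Finset.univ_inter, Finset.prod_const, hcard]

lemma measurable_site {N : ℕ} (β : ℝ≥0∞) {ρ : ℝ → ℝ} (hρ : Measurable ρ) (i : Fin N) :
    Measurable fun J : Finset (Fin N) → ℝ => site β ρ J i := by
  unfold site
  by_cases h : Full i
  · simp only [h, if_true]
    exact Finset.measurable_prod _ fun b _ =>
      (measurable_mag β).comp (hρ.comp (measurable_pi_apply _))
  · simp only [h, if_false]
    exact measurable_const

lemma site_abs_le {N : ℕ} (β : ℝ≥0∞) (ρ : ℝ → ℝ) (J : Finset (Fin N) → ℝ) (i : Fin N) :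
    |site β ρ J i| ≤ 1 := by
  unfold site
  split_ifs
  · rw [Finset.abs_prod]
    exact Finset.prod_le_one (fun e _ => abs_nonneg _) fun e _ => mag_abs_le _ _
  · simp

/-- The perturbed family. -/
def pert {N : ℕ} (p : ℝ → Ω' → ℝ) (z : (Finset (Fin N) → ℝ) × (Finset (Fin N) → Ω')) :
    Finset (Fin N) → ℝ := fun e => p (z.1 e) (z.2 e)

lemma measurable_pert {N : ℕ} {p : ℝ → Ω' → ℝ} (hp : Measurable (Function.uncurry p)) :
    Measurable (pert (N := N) p) := by
  rw [measurable_pi_iff]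
  intro e
  have hc : Measurable fun z : (Finset (Fin N) → ℝ) × (Finset (Fin N) → Ω') =>
        (z.1 e, z.2 e) := by fun_prop
  exact hp.comp hc

/-- The integrand. -/
noncomputable def FF {N : ℕ} (β : ℝ≥0∞) (ρ : ℝ → ℝ) (p : ℝ → Ω' → ℝ)
    (z : (Finset (Fin N) → ℝ) × (Finset (Fin N) → Ω')) : ℝ :=
  meanSq (blockGraph N) ρ β z.1 (pert p z)

lemma measurable_FF {N : ℕ} (β : ℝ≥0∞) {ρ : ℝ → ℝ} (hρ : Measurable ρ)
    {p : ℝ → Ω' → ℝ} (hp : Measurable (Function.uncurry p)) :
    Measurable (FF (N := N) β ρ p) := by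
  have h1 : Measurable fun z : (Finset (Fin N) → ℝ) × (Finset (Fin N) → Ω') =>
      (z.1, pert p z) := measurable_fst.prodMk (measurable_pert hp)
  have h2 := (measurable_meanSq (N := N) β hρ).comp h1
  exact h2

/-- The site correlation. -/
noncomputable def GG {N : ℕ} (β : ℝ≥0∞) (ρ : ℝ → ℝ) (p : ℝ → Ω' → ℝ) (i : Fin N)
    (z : (Finset (Fin N) → ℝ) × (Finset (Fin N) → Ω')) : ℝ :=
  site β ρ z.1 i * site β ρ (pert p z) i

lemma measurable_GG {N : ℕ} (β : ℝ≥0∞) {ρ : ℝ → ℝ} (hρ : Measurable ρ)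
    {p : ℝ → Ω' → ℝ} (hp : Measurable (Function.uncurry p)) (i : Fin N) :
    Measurable (GG (N := N) β ρ p i) := by
  unfold GG
  exact ((measurable_site β hρ i).comp measurable_fst).mul
        ((measurable_site β hρ i).comp (measurable_pert hp))

lemma abs_GG_le {N : ℕ} (β : ℝ≥0∞) (ρ : ℝ → ℝ) (p : ℝ → Ω' → ℝ) (i : Fin N)
    (z : (Finset (Fin N) → ℝ) × (Finset (Fin N) → Ω')) : |GG β ρ p i z| ≤ 1 := by
  unfold GG
  rw [abs_mul]
  exact mul_le_one₀ (site_abs_le _ _ _ _) (abs_nonneg _) (site_abs_le _ _ _ _)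

lemma abs_FF_le {N : ℕ} (β : ℝ≥0∞) (ρ : ℝ → ℝ) (p : ℝ → Ω' → ℝ)
    (z : (Finset (Fin N) → ℝ) × (Finset (Fin N) → Ω')) : |FF β ρ p z| ≤ 1 := by
  unfold FF
  rw [abs_of_nonneg (meanSq_nonneg _ _ _ _)]
  exact meanSq_le_one _ _ _ _

lemma FF_ge {N : ℕ} (β : ℝ≥0∞) (ρ : ℝ → ℝ) (p : ℝ → Ω' → ℝ) (c : ℝ)
    (z : (Finset (Fin N) → ℝ) × (Finset (Fin N) → Ω')) :
    2 * c * ((∑ i, GG β ρ p i z) / N) - c ^ 2 ≤ FF β ρ p z := by
  unfold FF GG
  exact meanSq_ge _ _ _ _ _

lemma abstract_ge {α ι : Type*} [MeasurableSpace α] [Fintype ι] (μ : Measure α)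
    [IsProbabilityMeasure μ] (F : α → ℝ) (G : ι → α → ℝ) (hF : Measurable F)
    (hG : ∀ i, Measurable (G i)) (hFb : ∀ z, |F z| ≤ 1) (hGb : ∀ i z, |G i z| ≤ 1) (c N : ℝ)
    (h : ∀ z, 2 * c * ((∑ i, G i z) / N) - c ^ 2 ≤ F z) :
    2 * c * ((∑ i, ∫ z, G i z ∂μ) / N) - c ^ 2 ≤ ∫ z, F z ∂μ := by
  have hFi : Integrable F μ :=
    Integrable.of_bound hF.aestronglyMeasurable 1 (by filter_upwards with z using hFb z)
  have hGi : ∀ i, Integrable (G i) μ := fun i =>
    Integrable.of_bound (hG i).aestronglyMeasurable 1 (by filter_upwards with z using hGb i z)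
  have h2 : ∫ z, (2 * c * ((∑ i, G i z) / N) - c ^ 2) ∂μ
      = 2 * c * ((∑ i, ∫ z, G i z ∂μ) / N) - c ^ 2 := by
    rw [integral_sub (((integrable_finset_sum _ fun i _ => hGi i).div_const _).const_mul _)
      (integrable_const _), integral_const_mul, integral_div,
      integral_finset_sum _ fun i _ => hGi i]
    simp
  rw [← h2]
  apply integral_mono _ hFi h
  exact (((integrable_finset_sum _ fun i _ => hGi i).div_const _).const_mul _).sub
      (integrable_const _)

lemma chaos_ge {N : ℕ} (β : ℝ≥0∞) {ρ : ℝ → ℝ} (hρ : Measurable ρ) (ν : Measure Ω')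
    [IsProbabilityMeasure ν] {p : ℝ → Ω' → ℝ} (hp : Measurable (Function.uncurry p)) (c : ℝ) :
    2 * c * (((Finset.univ.filter fun a : Fin N => Full a).card * kap β ρ ν p ^ 3) / N) - c ^ 2
      ≤ ∫ J : Finset (Fin N) → ℝ, ∫ u : Finset (Fin N) → Ω', FF β ρ p (J, u)
        ∂(Measure.pi fun _ => ν) ∂(Measure.pi fun _ => gaussianReal 0 1) := by
  have hFint : Integrable (FF (N := N) β ρ p)
      ((Measure.pi fun _ => gaussianReal 0 1).prod (Measure.pi fun _ => ν)) :=
    Integrable.of_bound (measurable_FF β hρ hp).aestronglyMeasurable 1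
      (by filter_upwards with z using abs_FF_le β ρ p z)
  rw [← integral_prod _ hFint]
  have h3 : ∀ i : Fin N, ∫ z, GG β ρ p i z
      ∂((Measure.pi fun _ => gaussianReal 0 1).prod (Measure.pi fun _ => ν))
        = if Full i then kap β ρ ν p ^ 3 else 0 := by
    intro i
    split_ifs with hi
    · exact integral_site β hρ ν hp hi
    · have : ∀ z, GG β ρ p i z = 0 := by
        intro z
        unfold GG site
        rw [if_neg hi, zero_mul]
      simp only [this, integral_zero]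
  have h4 := abstract_ge ((Measure.pi fun _ => gaussianReal 0 1).prod (Measure.pi fun _ => ν))
    (FF (N := N) β ρ p) (GG β ρ p) (measurable_FF β hρ hp) (measurable_GG β hρ hp)
    (abs_FF_le β ρ p) (abs_GG_le β ρ p) c N (FF_ge β ρ p c)
  simp only [h3] at h4
  rw [← Finset.sum_filter, Finset.sum_const, nsmul_eq_mul] at h4
  exact h4

lemma card_full {N : ℕ} (hN : 4 ≤ N) :
    (N : ℝ) / 2 ≤ ((Finset.univ.filter fun a : Fin N => Full a).card : ℝ) := by
  have h1 : 4 * (N / 4) ≤ (Finset.univ.filter fun a : Fin N => Full a).card := by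
    have : (Finset.range (4 * (N / 4))).card
        ≤ ((Finset.univ.filter fun a : Fin N => Full a).image fun a : Fin N => a.val).card := by
      apply Finset.card_le_card
      intro x hx
      rw [Finset.mem_range] at hx
      rw [Finset.mem_image]
      refine ⟨⟨x, by omega⟩, ?_, rfl⟩
      rw [Finset.mem_filter]
      refine ⟨Finset.mem_univ _, ?_⟩
      unfold Full
      simp only
      omega
    rw [Finset.card_range] at this
    exact this.trans Finset.card_image_le
  have h2 : N ≤ 2 * (4 * (N / 4)) := by omega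
  have h3 : (N : ℝ) ≤ 2 * ((Finset.univ.filter fun a : Fin N => Full a).card : ℝ) := by
    calc (N : ℝ) ≤ ((2 * (4 * (N / 4)) : ℕ) : ℝ) := by exact_mod_cast h2
      _ ≤ ((2 * (Finset.univ.filter fun a : Fin N => Full a).card : ℕ) : ℝ) := by
        exact_mod_cast Nat.mul_le_mul_left 2 h1
      _ = _ := by push_cast; ring
  linarith

lemma chaos_pos {N : ℕ} (hN : 4 ≤ N) (β : ℝ≥0∞) {ρ : ℝ → ℝ} (hρ : Measurable ρ) (ν : Measure Ω')
    [IsProbabilityMeasure ν] {p : ℝ → Ω' → ℝ} (hp : Measurable (Function.uncurry p))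
    (hκ : 0 < kap β ρ ν p) :
    kap β ρ ν p ^ 6 / 4
      ≤ ∫ J : Finset (Fin N) → ℝ, ∫ u : Finset (Fin N) → Ω', FF β ρ p (J, u)
        ∂(Measure.pi fun _ => ν) ∂(Measure.pi fun _ => gaussianReal 0 1) := by
  refine le_trans ?_ (chaos_ge β hρ ν hp (kap β ρ ν p ^ 3 / 2))
  have hN' : (0 : ℝ) < N := by exact_mod_cast (by omega : 0 < N)
  have h1 := card_full hN
  generalize ((Finset.univ.filter fun a : Fin N => Full a).card : ℝ) = F at h1 ⊢
  generalize kap β ρ ν p = k at hκ ⊢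
  have hk3 : 0 < k ^ 3 := by positivity
  have h2 : k ^ 3 / 2 ≤ (F * k ^ 3) / N := by
    rw [le_div_iff₀ hN']
    nlinarith
  have h3 : 2 * (k ^ 3 / 2) * (k ^ 3 / 2) ≤ 2 * (k ^ 3 / 2) * ((F * k ^ 3) / N) :=
    mul_le_mul_of_nonneg_left h2 (by positivity)
  nlinarith

end

end Pool.Agent.R973.Chaos
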